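import Mathlib
import Pool.Agent.X1.SchM

/-!
# Lang's inequality for almost all elements of a real number field

Let `α_1, …, α_d` be real algebraic numbers with `1, α_1, …, α_d` linearly independent over the
rationals, for example, together with `1`, a basis of a real number field `K` of degree `d + 1`.
For every `κ < d` almost all of the numbers `m_1 α_1 + … + m_d α_d`, `|m_i| ≤ M`, satisfy Lang's
inequality `|x - p/q| > c / (q^2 (log q)^(1+ε))` for all `2 ≤ q ≤ M^κ`.  For `d = 1` these are the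
integer multiples of one algebraic number.

The proof: Schmidt's theorem on the product of the distances of the `k α_i` to the nearest integers
(from the subspace theorem of the library) bounds the sum over `k ≤ K` of the reciprocals of these
products by `K^(1+o(1))`; this controls the number of the pairs `(m, q)` for which `q (m · α)` is
near an integer.
-/

set_option autoImplicit false

namespace Pool.Agent.Results.MP_c307ca_nt.AlmostAllFieldElements

open Finset Filter
open Pool.Agent.X1.SchP (nd nd_le nd_nonneg large tail_summable)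

/-- `x` violates Lang's inequality with the constant `c` at a denominator `2 ≤ q ≤ M^κ` -/
def Violates (c κ ε : ℝ) (M : ℕ) (x : ℝ) : Prop :=
  ∃ (p : ℤ) (q : ℕ), 2 ≤ q ∧ (q : ℝ) ≤ (M : ℝ) ^ κ ∧
    |x - (p : ℝ) / q| ≤ c / ((q : ℝ) ^ 2 * Real.log q ^ (1 + ε))

lemma ind_int {d : ℕ} (α : Fin d → ℝ)
    (hind : LinearIndependent ℚ (Fin.cons 1 α : Fin (d + 1) → ℝ)) (y0 : ℤ) (y : Fin d → ℤ)
    (h : (y0 : ℝ) + ∑ i, (y i : ℝ) * α i = 0) : y0 = 0 ∧ y = 0 := by
  have h1 := Fintype.linearIndependent_iff.1 hind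
    (Fin.cons (y0 : ℚ) (fun i => (y i : ℚ))) (by
      rw [Fin.sum_univ_succ]
      simp only [Fin.cons_zero, Fin.cons_succ, Rat.smul_def]
      push_cast
      rw [mul_one]
      exact h)
  refine ⟨?_, ?_⟩
  · have := h1 0
    rw [Fin.cons_zero] at this
    exact_mod_cast this
  · funext i
    have := h1 i.succ
    rw [Fin.cons_succ] at this
    exact_mod_cast this

lemma pos_min {ι : Type*} (F : Finset ι) (f : ι → ℝ) (h : ∀ z ∈ F, 0 < f z) :
    ∃ δ : ℝ, 0 < δ ∧ ∀ z ∈ F, δ ≤ f z := by
  rcases F.eq_empty_or_nonempty with h0 | h0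
  · exact ⟨1, one_pos, fun z hz => by rw [h0] at hz; simp at hz⟩
  · obtain ⟨z, hz, hmin⟩ := F.exists_min_image f h0
    exact ⟨f z, h z hz, hmin⟩

lemma logpos {ε : ℝ} {q : ℕ} (hq : 2 ≤ q) : 0 < (q : ℝ) ^ 2 * Real.log q ^ (1 + ε) := by
  have h2 : (2 : ℝ) ≤ q := by exact_mod_cast hq
  have h3 : 0 < Real.log q := Real.log_pos (by linarith)
  positivity

open Classical in
/-- **Lang's inequality for almost all elements.** Let `α_1, …, α_d` (`d ≥ 1`) be real algebraic
numbers with `1, α_1, …, α_d` linearly independent over `ℚ`, let `κ < d` and `ε, η > 0`. There is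
`c > 0` such that

* for every `M ≥ 1` all but at most `η (2 M + 1)^d` of the numbers `x = m_1 α_1 + … + m_d α_d`
  (`m_i` integers with `|m_i| ≤ M`, not all zero) satisfy `|x - p/q| > c / (q^2 (log q)^(1+ε))` for
  all integers `p` and all `2 ≤ q ≤ M^κ`;
* there is `M₀` such that for every `M ≥ M₀` and every real number `t` all but at most `η M^d` of the
  numbers `x = t + m_1 α_1 + … + m_d α_d` (`0 ≤ m_i < M`) satisfy the same inequality for all integers
  `p` and all `2 ≤ q ≤ M^κ`. -/
theorem result {d : ℕ} (hd : 1 ≤ d) (α : Fin d → ℝ) (halg : ∀ i, IsAlgebraic ℚ (α i))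
    (hind : LinearIndependent ℚ (Fin.cons 1 α : Fin (d + 1) → ℝ)) (κ ε η : ℝ) (hκ : κ < d)
    (hε : 0 < ε) (hη : 0 < η) :
    ∃ c : ℝ, 0 < c ∧
      (∀ M : ℕ, 1 ≤ M →
        (((Fintype.piFinset fun _ : Fin d => Icc (-(M : ℤ)) M).filter fun m =>
          m ≠ 0 ∧ Violates c κ ε M (∑ i, (m i : ℝ) * α i)).card : ℝ) ≤
          η * (2 * (M : ℝ) + 1) ^ d) ∧
      ∃ M₀ : ℕ, ∀ M : ℕ, M₀ ≤ M → ∀ t : ℝ,
        (((Fintype.piFinset fun _ : Fin d => range M).filter fun m =>
          Violates c κ ε M (t + ∑ i, (m i : ℝ) * α i)).card : ℝ) ≤ η * (M : ℝ) ^ d := by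
  have hii := ind_int α hind
  have hlog2 : 0 < Real.log 2 := Real.log_pos (by norm_num)
  set Z : ℝ := ∑' n : ℕ, 1 / ((n : ℝ) * Real.log 2) ^ (1 + ε) with hZ
  have hZ0 : 0 ≤ Z := tsum_nonneg fun n => by positivity
  set c1 : ℝ := min (Real.log 2 ^ (1 + ε) / 4) (η / (128 * (Z + 1))) with hc1
  have hc10 : 0 < c1 := lt_min (by positivity) (by positivity)
  have hc1Z : 64 * c1 * Z ≤ η / 2 := by
    have h1 : c1 ≤ η / (128 * (Z + 1)) := min_le_right _ _
    calc 64 * c1 * Z ≤ 64 * (η / (128 * (Z + 1))) * (Z + 1) := by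
          refine mul_le_mul (mul_le_mul_of_nonneg_left h1 (by norm_num)) (by linarith) hZ0
            (by positivity)
      _ = η / 2 := by
          field_simp
          norm_num
  set κ' : ℝ := max κ 0 with hκ'
  have hκ'0 : 0 ≤ κ' := le_max_right _ _
  have hκ'd : κ' < d := max_lt hκ (by exact_mod_cast hd)
  obtain ⟨B₀, hB₀⟩ := large α halg hii κ' ε η c1 hκ'0 hκ'd hε hη hc10 (min_le_left _ _) hc1Z
  -- the small sizes
  set F : Finset ((Fin d → ℤ) × ℕ) :=
    ((Fintype.piFinset fun _ : Fin d => Icc (-(B₀ : ℤ)) B₀).filter fun m => m ≠ 0) ×ˢ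
      (Icc 2 ⌊(B₀ : ℝ) ^ κ'⌋₊) with hF
  obtain ⟨δ, hδ, hδF⟩ := pos_min F (fun z => nd ((z.2 : ℝ) * ∑ i, (z.1 i : ℝ) * α i)) (by
    rintro ⟨m, q⟩ hz
    rw [hF, mem_product, mem_filter, mem_Icc] at hz
    obtain ⟨⟨_, hm⟩, hq, _⟩ := hz
    simp only
    rcases (nd_nonneg ((q : ℝ) * ∑ i, (m i : ℝ) * α i)).lt_or_eq with h | h
    · exact h
    · exfalso
      unfold nd at h
      have h1 := abs_eq_zero.1 h.symm
      have h2 := (hii (-round ((q : ℝ) * ∑ i, (m i : ℝ) * α i)) (fun i => (q : ℤ) * m i) (by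
        push_cast
        have h3 : ∑ i, (q : ℝ) * (m i : ℝ) * α i = (q : ℝ) * ∑ i, (m i : ℝ) * α i := by
          rw [Finset.mul_sum]
          exact Finset.sum_congr rfl fun i _ => by ring
        rw [h3]
        linarith)).2
      apply hm
      funext i
      have h4 := congrFun h2 i
      simp only [Pi.zero_apply] at h4
      have hq0 : (q : ℤ) ≠ 0 := by simp only at hq; omega
      exact (mul_eq_zero.1 h4).resolve_left hq0)
  set c2 : ℝ := δ * Real.log 2 ^ (1 + ε) with hc2
  have hc20 : 0 < c2 := by positivity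
  set c : ℝ := min c1 c2 with hc
  have hc0 : 0 < c := lt_min hc10 hc20
  -- monotonicity
  have hmono : ∀ (M : ℕ) (B : ℕ) (x : ℝ), 1 ≤ M → M ≤ B → Violates c κ ε M x →
      ∃ (p : ℤ) (q : ℕ), 2 ≤ q ∧ (q : ℝ) ≤ (B : ℝ) ^ κ' ∧
        |x - (p : ℝ) / q| ≤ c1 / ((q : ℝ) ^ 2 * Real.log q ^ (1 + ε)) := by
    rintro M B x hM hMB ⟨p, q, hq2, hqκ, hle⟩
    have hMR : (1 : ℝ) ≤ M := by exact_mod_cast hM
    refine ⟨p, q, hq2, ?_, hle.trans ?_⟩
    · calc (q : ℝ) ≤ (M : ℝ) ^ κ := hqκ
        _ ≤ (M : ℝ) ^ κ' := Real.rpow_le_rpow_of_exponent_le hMR (le_max_left _ _)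
        _ ≤ (B : ℝ) ^ κ' := Real.rpow_le_rpow (by linarith) (by exact_mod_cast hMB) hκ'0
    · exact div_le_div_of_nonneg_right (min_le_left _ _) (logpos hq2).le
  refine ⟨c, hc0, ?_, max B₀ 1, ?_⟩
  · intro M hM
    rcases Nat.lt_or_ge M B₀ with hMB | hMB
    · -- small `M`: no exceptions
      have hempty : ((Fintype.piFinset fun _ : Fin d => Icc (-(M : ℤ)) M).filter fun m =>
          m ≠ 0 ∧ Violates c κ ε M (∑ i, (m i : ℝ) * α i)) = ∅ := by
        rw [Finset.filter_eq_empty_iff]
        rintro m hm ⟨hm0, p, q, hq2, hqκ, hle⟩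
        have hMR : (1 : ℝ) ≤ M := by exact_mod_cast hM
        have hq2R : (2 : ℝ) ≤ q := by exact_mod_cast hq2
        have hq0 : (0 : ℝ) < q := by linarith
        have hz : (m, q) ∈ F := by
          rw [hF, mem_product, mem_filter, mem_Icc]
          refine ⟨⟨?_, hm0⟩, hq2, Nat.le_floor ?_⟩
          · rw [Fintype.mem_piFinset] at hm ⊢
            intro i
            have := hm i
            rw [mem_Icc] at this
            change m i ∈ Icc (-(B₀ : ℤ)) B₀
            rw [mem_Icc]
            omega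
          · calc (q : ℝ) ≤ (M : ℝ) ^ κ := hqκ
              _ ≤ (M : ℝ) ^ κ' := Real.rpow_le_rpow_of_exponent_le hMR (le_max_left _ _)
              _ ≤ (B₀ : ℝ) ^ κ' :=
                Real.rpow_le_rpow (by linarith) (by exact_mod_cast hMB.le) hκ'0
        have h1 := hδF (m, q) hz
        simp only at h1
        have h2 : nd ((q : ℝ) * ∑ i, (m i : ℝ) * α i) ≤ c / (q * Real.log q ^ (1 + ε)) := by
          refine (nd_le _ p).trans ?_
          have h3 : (q : ℝ) * ∑ i, (m i : ℝ) * α i - p =
              q * (∑ i, (m i : ℝ) * α i - (p : ℝ) / q) := by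
            field_simp
          rw [h3, abs_mul, abs_of_pos hq0]
          have hlq : 0 < Real.log q := Real.log_pos (by linarith)
          calc (q : ℝ) * |∑ i, (m i : ℝ) * α i - (p : ℝ) / q|
              ≤ q * (c / ((q : ℝ) ^ 2 * Real.log q ^ (1 + ε))) :=
                mul_le_mul_of_nonneg_left hle hq0.le
            _ = c / (q * Real.log q ^ (1 + ε)) := by field_simp
        have h4 : c / (q * Real.log q ^ (1 + ε)) ≤ c2 / (2 * Real.log 2 ^ (1 + ε)) := by
          apply div_le_div₀ hc20.le (min_le_right _ _) (by positivity)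
          apply mul_le_mul hq2R _ (by positivity) hq0.le
          exact Real.rpow_le_rpow hlog2.le (Real.log_le_log (by norm_num) hq2R) (by linarith)
        have h5 : c2 / (2 * Real.log 2 ^ (1 + ε)) = δ / 2 := by
          rw [hc2]
          have : 0 < Real.log 2 ^ (1 + ε) := by positivity
          field_simp
        linarith
      rw [hempty, Finset.card_empty, Nat.cast_zero]
      positivity
    · -- large `M`
      have h1 := hB₀ (2 * M + 1) (by omega) (-((M : ℝ) * ∑ i, α i))
      have h2 : ((Fintype.piFinset fun _ : Fin d => Icc (-(M : ℤ)) M).filter fun m =>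
          m ≠ 0 ∧ Violates c κ ε M (∑ i, (m i : ℝ) * α i)).card ≤
          ((Fintype.piFinset fun _ : Fin d => range (2 * M + 1)).filter fun a =>
            ∃ (p : ℤ) (q : ℕ), 2 ≤ q ∧ (q : ℝ) ≤ ((2 * M + 1 : ℕ) : ℝ) ^ κ' ∧
              |-((M : ℝ) * ∑ i, α i) + ∑ i, (a i : ℝ) * α i - (p : ℝ) / q| ≤
                c1 / ((q : ℝ) ^ 2 * Real.log q ^ (1 + ε))).card := by
        apply Finset.card_le_card_of_injOn
          (fun (m : Fin d → ℤ) (i : Fin d) => (m i + (M : ℤ)).toNat)
        · intro m hm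
          rw [mem_coe, mem_filter, Fintype.mem_piFinset] at hm
          obtain ⟨hm1, _, hm2⟩ := hm
          rw [mem_coe, mem_filter, Fintype.mem_piFinset]
          refine ⟨fun i => ?_, ?_⟩
          · have := mem_Icc.1 (hm1 i)
            change (m i + (M : ℤ)).toNat ∈ range (2 * M + 1)
            rw [mem_range]
            omega
          · have h3 : -((M : ℝ) * ∑ i, α i) + ∑ i, (((m i + M).toNat : ℕ) : ℝ) * α i =
                ∑ i, (m i : ℝ) * α i := by
              have h4 : ∀ i, (((m i + M).toNat : ℕ) : ℝ) = (m i : ℝ) + M := by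
                intro i
                have h5 := mem_Icc.1 (hm1 i)
                have h6 : (((m i + M).toNat : ℕ) : ℤ) = m i + M := Int.toNat_of_nonneg (by omega)
                exact_mod_cast h6
              simp only [h4, add_mul, Finset.sum_add_distrib, ← Finset.mul_sum]
              ring
            rw [h3]
            exact hmono M (2 * M + 1) _ hM (by omega) hm2
        · intro m hm m' hm' hmm
          rw [mem_coe, mem_filter, Fintype.mem_piFinset] at hm hm'
          funext i
          have h3 : (m i + (M : ℤ)).toNat = (m' i + (M : ℤ)).toNat := congrFun hmm i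
          have h4 := mem_Icc.1 (hm.1 i)
          have h5 := mem_Icc.1 (hm'.1 i)
          omega
      have h3 : (((Fintype.piFinset fun _ : Fin d => Icc (-(M : ℤ)) M).filter fun m =>
          m ≠ 0 ∧ Violates c κ ε M (∑ i, (m i : ℝ) * α i)).card : ℝ) ≤
          η * ((2 * M + 1 : ℕ) : ℝ) ^ d := (Nat.cast_le.2 h2).trans h1
      push_cast at h3
      exact h3
  · intro M hM t
    have hM1 : 1 ≤ M := (le_max_right _ _).trans hM
    refine le_trans ?_ (hB₀ M ((le_max_left _ _).trans hM) t)
    refine Nat.cast_le.2 (Finset.card_le_card ?_)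
    intro m hm
    rw [mem_filter] at hm ⊢
    exact ⟨hm.1, hmono M M _ hM1 le_rfl hm.2⟩

end Pool.Agent.Results.MP_c307ca_nt.AlmostAllFieldElements
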