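import Pool.Agent.X121.LG.Main

/-!
# Lang's inequality for almost all roots of integers and of primes
-/

set_option autoImplicit false

namespace Pool.Agent.Results.MP_c307ca_nt.AlmostAllRoots

open Finset Filter

/-- the inequality `|x - p/q| > c / (q² (log q)^(1+ε))` fails for some integer `p` and some
integer `2 ≤ q ≤ R` -/
def Violates (c ε R x : ℝ) : Prop :=
  ∃ (p : ℤ) (q : ℕ), 2 ≤ q ∧ (q : ℝ) ≤ R ∧
    |x - (p : ℝ) / q| ≤ c / ((q : ℝ) ^ 2 * Real.log q ^ (1 + ε))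

open Classical in
/-- **Lang's inequality for almost all roots of integers and of primes.** For all `ε, η > 0` there is
`c > 0` such that

* for all real `0 < θ < 1` and `κ < 1/2 - θ/4` and all large `N`, all but at most `η N` of the integers
  `N < n ≤ 2 N` have `|n^θ - a/q| > c / (q² (log q)^(1+ε))` for all integers `a` and all
  `2 ≤ q ≤ N^κ`;
* for every real non-integer `θ > 0` and all large `N`, all but a proportion at most `η` of the primes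
  `N < p ≤ 2 N` have `|p^θ - a/q| > c / (q² (log q)^(1+ε))` for all integers `a` and all
  `2 ≤ q ≤ exp ((log N)^(1/4))`. -/
theorem result (ε η : ℝ) (hε : 0 < ε) (hη : 0 < η) :
    ∃ c : ℝ, 0 < c ∧
      (∀ θ κ : ℝ, 0 < θ → θ < 1 → κ < 1 / 2 - θ / 4 → ∃ N₀ : ℕ, ∀ N : ℕ, N₀ ≤ N →
        (((Ioc N (2 * N)).filter fun n : ℕ => Violates c ε ((N : ℝ) ^ κ) ((n : ℝ) ^ θ)).card : ℝ) ≤
          η * N) ∧
      ∀ θ : ℝ, 0 < θ → (∀ m : ℕ, θ ≠ m) → ∃ N₀ : ℕ, ∀ N : ℕ, N₀ ≤ N →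
        ((((Ioc N (2 * N)).filter Nat.Prime).filter fun p : ℕ =>
          Violates c ε (Real.exp (Real.log N ^ (1 / 4 : ℝ))) ((p : ℝ) ^ θ)).card : ℝ) ≤
          η * ((Ioc N (2 * N)).filter Nat.Prime).card := by
  obtain ⟨Z, hZ⟩ : ∃ Z : ℝ, Z = ∑' q : ℕ, (q : ℝ) *
    Pool.Agent.Results.MP_c307ca_nt.AlmostAllToHeight.w ε q := ⟨_, rfl⟩
  have hZ0 : 0 ≤ Z := by
    rw [hZ]
    exact tsum_nonneg fun q => mul_nonneg (Nat.cast_nonneg q)
      (Pool.Agent.Results.MP_c307ca_nt.AlmostAllToHeight.w_pos ε q).le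
  have hlog2 : 0 < Real.log 2 := Real.log_pos (by norm_num)
  have hL : 0 < Real.log 2 ^ (1 + ε) := Real.rpow_pos_of_pos hlog2 _
  obtain ⟨c, hc⟩ : ∃ c : ℝ, c = min (Real.log 2 ^ (1 + ε) / 6) (η / (96 * (Z + 1))) := ⟨_, rfl⟩
  have hc0 : 0 < c := by rw [hc]; exact lt_min (by positivity) (by positivity)
  have hc1 : 6 * c ≤ Real.log 2 ^ (1 + ε) := by
    have : c ≤ Real.log 2 ^ (1 + ε) / 6 := by rw [hc]; exact min_le_left _ _
    linarith
  have hc2 : 48 * c * ∑' q : ℕ, (q : ℝ) *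
      Pool.Agent.Results.MP_c307ca_nt.AlmostAllToHeight.w ε q ≤ η / 2 := by
    rw [← hZ]
    have h1 : c ≤ η / (96 * (Z + 1)) := by rw [hc]; exact min_le_right _ _
    rw [le_div_iff₀ (by positivity)] at h1
    nlinarith
  refine ⟨c, hc0, fun θ κ h0 h1 hκ => ?_, fun θ h0 h1 => ?_⟩
  · obtain ⟨N₀, hN₀⟩ := eventually_atTop.1
      (Pool.Agent.X121.LG.integers h0 h1 hκ hε hη hc0 hc1 hc2)
    exact ⟨N₀, fun N hN => hN₀ N hN⟩
  · obtain ⟨N₀, hN₀⟩ := eventually_atTop.1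
      (Pool.Agent.X121.LG.primes h0 h1 hε hη hc0 hc1 hc2)
    exact ⟨N₀, fun N hN => hN₀ N hN⟩

end Pool.Agent.Results.MP_c307ca_nt.AlmostAllRoots
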