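import Pool.Agent.X35.DQ.Cnt
import Pool.Agent.Y854.GM.Win

/-!
# Rational approximations of all real algebraic numbers with denominators near `α v_i`
-/

set_option autoImplicit false

namespace Pool.Agent.Results.MP_c307ca_nt.DenominatorsNearSequences

open Finset Filter
open Pool.Agent.X1.SchP (nd nd_le nd_nonneg)
open Pool.Agent.Y854.GM (ExpLe)

/-- a power of the logarithm -/
theorem log_pow (A : ℕ) (η : ℝ) (hη : 0 < η) : ∃ C : ℝ, 0 < C ∧ ∀ k : ℕ, 1 ≤ k → Real.log k ^ A ≤ C * (k : ℝ) ^ η := by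
  set η' : ℝ := η / (A + 1) with hη'
  have hη'0 : 0 < η' := by positivity
  refine ⟨1 / η' ^ A, by positivity, fun k hk => ?_⟩
  have hk1 : (1 : ℝ) ≤ k := by exact_mod_cast hk
  have h1 : Real.log k ≤ (k : ℝ) ^ η' / η' := Real.log_le_rpow_div (by linarith) hη'0
  calc Real.log k ^ A ≤ ((k : ℝ) ^ η' / η') ^ A := pow_le_pow_left₀ (Real.log_nonneg hk1) h1 A
    _ = 1 / η' ^ A * (k : ℝ) ^ (η' * A) := by
        rw [div_pow, ← Real.rpow_natCast ((k : ℝ) ^ η') A, ← Real.rpow_mul (by linarith)]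
        ring
    _ ≤ 1 / η' ^ A * (k : ℝ) ^ η := by
        apply mul_le_mul_of_nonneg_left _ (by positivity)
        apply Real.rpow_le_rpow_of_exponent_le hk1
        rw [hη', div_mul_eq_mul_div, div_le_iff₀ (by positivity)]
        nlinarith

open Classical in
/-- the count of the bad denominators -/
theorem count_log {T : ℕ} (ξ : Fin T → ℝ) (hξ : ∀ i, IsAlgebraic ℚ (ξ i))
    (hind : ∀ (y0 : ℤ) (y : Fin T → ℤ), (y0 : ℝ) + ∑ i, (y i : ℝ) * ξ i = 0 → y0 = 0 ∧ y = 0) (A : ℕ) (β : ℝ)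
    (hβ0 : 0 ≤ β) (hβ1 : β < 1) (ε : ℝ) (hε : 0 < ε) : ∃ C : ℝ, ∀ X : ℕ, 1 ≤ X →
      (((Ioc 0 X).filter fun k : ℕ => k ∈ {k : ℕ | ∏ i, nd (k * ξ i) ≤ Real.log k ^ A * (k : ℝ) ^ (β - 1)}).card : ℝ) ≤
        C * (X : ℝ) ^ (β + ε) := by
  set η : ℝ := min (ε / 2) (1 - β) with hη
  have hη0 : 0 < η := lt_min (by linarith) (by linarith)
  have hη1 : η ≤ ε / 2 := min_le_left _ _
  have hη2 : η ≤ 1 - β := min_le_right _ _
  obtain ⟨c, hc, hlog⟩ := log_pow A η hη0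
  obtain ⟨C, hC, h⟩ := Pool.Agent.X35.DQ.count ξ hξ hind c (β + η) (ε / 2) hc (by linarith) (by linarith) (by linarith)
  refine ⟨C, fun X hX => ?_⟩
  have hX1 : (1 : ℝ) ≤ X := by exact_mod_cast hX
  have hsub : (Ioc 0 X).filter (fun k : ℕ => k ∈ {k : ℕ | ∏ i, nd (k * ξ i) ≤ Real.log k ^ A * (k : ℝ) ^ (β - 1)}) ⊆
      (Ioc 0 X).filter fun k : ℕ => ∏ i, nd (k * ξ i) ≤ c * (k : ℝ) ^ (β + η - 1) := by
    intro k hk
    rw [mem_filter, mem_Ioc] at hk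
    rw [mem_filter, mem_Ioc]
    refine ⟨hk.1, ?_⟩
    have hk1 : 1 ≤ k := hk.1.1
    have hk0 : (0 : ℝ) < k := by exact_mod_cast hk1
    have h1 : ∏ i, nd (k * ξ i) ≤ Real.log k ^ A * (k : ℝ) ^ (β - 1) := hk.2
    refine h1.trans ?_
    calc Real.log k ^ A * (k : ℝ) ^ (β - 1) ≤ c * (k : ℝ) ^ η * (k : ℝ) ^ (β - 1) :=
          mul_le_mul_of_nonneg_right (hlog k hk1) (by positivity)
      _ = c * (k : ℝ) ^ (β + η - 1) := by
          rw [mul_assoc, ← Real.rpow_add hk0]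
          congr 2
          ring
  have h1 : (((Ioc 0 X).filter fun k : ℕ => k ∈ {k : ℕ | ∏ i, nd (k * ξ i) ≤ Real.log k ^ A * (k : ℝ) ^ (β - 1)}).card : ℝ) ≤
      (((Ioc 0 X).filter fun k : ℕ => ∏ i, nd (k * ξ i) ≤ c * (k : ℝ) ^ (β + η - 1)).card : ℝ) := by
    exact_mod_cast card_le_card hsub
  refine h1.trans ((h X).trans ?_)
  apply mul_le_mul_of_nonneg_left _ hC.le
  exact Real.rpow_le_rpow_of_exponent_le hX1 (by linarith)

/-- independence, in integers -/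
theorem ind_int {d : ℕ} (ξ : Fin d → ℝ) (hind : LinearIndependent ℚ (Fin.cons 1 ξ : Fin (d + 1) → ℝ)) (y0 : ℤ)
    (y : Fin d → ℤ) (h : (y0 : ℝ) + ∑ i, (y i : ℝ) * ξ i = 0) : y0 = 0 ∧ y = 0 := by
  have h1 := Fintype.linearIndependent_iff.1 hind (Fin.cons (y0 : ℚ) (fun i => (y i : ℚ))) (by
      rw [Fin.sum_univ_succ]
      simp only [Fin.cons_zero, Fin.cons_succ, Rat.smul_def]
      push_cast
      rw [mul_one]
      exact h)
  refine ⟨?_, ?_⟩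
  · have := h1 0
    rw [Fin.cons_zero] at this
    exact_mod_cast this
  · funext i
    have := h1 i.succ
    rw [Fin.cons_succ] at this
    exact_mod_cast this

theorem ind_one (ξ : ℝ) (h : Irrational ξ) (y0 : ℤ) (y : Fin 1 → ℤ) (h0 : (y0 : ℝ) + ∑ i, (y i : ℝ) * (fun _ : Fin 1 => ξ) i = 0) :
    y0 = 0 ∧ y = 0 := by
  simp only [Fin.sum_univ_one] at h0
  have hy : y 0 = 0 := by
    by_contra hne
    apply h
    refine ⟨-(y0 : ℚ) / (y 0 : ℚ), ?_⟩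
    have h1 : (y 0 : ℝ) ≠ 0 := by exact_mod_cast hne
    push_cast
    rw [div_eq_iff h1]
    linarith
  refine ⟨?_, ?_⟩
  · rw [hy] at h0
    push_cast at h0
    rw [zero_mul, add_zero] at h0
    exact_mod_cast h0
  · funext i
    rw [Subsingleton.elim i 0, hy]
    rfl

/-- **All rational approximations with denominators near `α v_i`, to all real algebraic numbers.** Let `v_i ≥ 1` be reals with
`∑ v_i ^ (-t) < ∞` for all `t > τ` (`τ ≥ 0`; for example `v_i = 2 ^ i`, `τ = 0`), `0 ≤ θ < 1` and `0 ≤ β < 1`. There is a set `E` of reals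
of Hausdorff dimension at most `(β + τ) / (1 - θ)` with the following property for every `α > 0` outside `E` and every natural number `A`.

* For every real algebraic irrational `ξ` there is `i₀` such that for all `i ≥ i₀`, all natural numbers `q` with
  `|q - α v_i| ≤ v_i ^ θ` and all integers `p`: `|ξ - p / q| > (log q) ^ A / q ^ (2 - β)`.
* For all real algebraic `ξ_1, …, ξ_d` with `1, ξ_1, …, ξ_d` linearly independent over the rationals there is `i₀` such that for all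
  `i ≥ i₀`, all natural numbers `q` with `|q - α v_i| ≤ v_i ^ θ` and all integers `p_1, …, p_d`:
  `∏ |q ξ_l - p_l| > (log q) ^ A / q ^ (1 - β)`. -/
theorem result (v : ℕ → ℝ) (τ θ β : ℝ) (hv1 : ∀ i, 1 ≤ v i) (hτ : 0 ≤ τ) (_hθ0 : 0 ≤ θ) (hθ : θ < 1)
    (hv : ∀ t : ℝ, τ < t → Summable (fun i => v i ^ (-t))) (hβ0 : 0 ≤ β) (hβ1 : β < 1) :
    ∃ E : Set ℝ, dimH E ≤ ENNReal.ofReal ((β + τ) / (1 - θ)) ∧ ∀ α : ℝ, 0 < α → α ∉ E → ∀ A : ℕ,
      (∀ ξ : ℝ, IsAlgebraic ℚ ξ → Irrational ξ → ∃ i₀ : ℕ, ∀ i : ℕ, i₀ ≤ i → ∀ q : ℕ, |(q : ℝ) - α * v i| ≤ v i ^ θ →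
        ∀ p : ℤ, Real.log q ^ A / (q : ℝ) ^ (2 - β) < |ξ - p / q|) ∧
      (∀ (d : ℕ) (ξ : Fin d → ℝ), (∀ l, IsAlgebraic ℚ (ξ l)) → LinearIndependent ℚ (Fin.cons 1 ξ : Fin (d + 1) → ℝ) →
        ∃ i₀ : ℕ, ∀ i : ℕ, i₀ ≤ i → ∀ q : ℕ, |(q : ℝ) - α * v i| ≤ v i ^ θ →
          ∀ p : Fin d → ℤ, Real.log q ^ A / (q : ℝ) ^ (1 - β) < ∏ l, |(q : ℝ) * ξ l - p l|) := by
  classical
  have hvE : ExpLe v τ := hv
  -- one family and one power of the logarithm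
  have key : ∀ t : (Σ d : ℕ, Fin d → {x : ℝ // IsAlgebraic ℚ x}) × ℕ, ∃ E : Set ℝ, dimH E ≤ ENNReal.ofReal ((β + τ) / (1 - θ)) ∧
      ((∀ (y0 : ℤ) (y : Fin t.1.1 → ℤ), (y0 : ℝ) + ∑ i, (y i : ℝ) * ((t.1.2 i : ℝ)) = 0 → y0 = 0 ∧ y = 0) →
        ∀ α : ℝ, 0 < α → α ∉ E → ∃ n0 : ℕ, ∀ n : ℕ, n0 ≤ n → ∀ m : ℕ, |(m : ℝ) - α * v n| ≤ (v n) ^ θ →
          0 < m ∧ ∀ p : Fin t.1.1 → ℤ, Real.log m ^ t.2 * (m : ℝ) ^ (β - 1) < ∏ l, |(m : ℝ) * (t.1.2 l : ℝ) - p l|) := by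
    rintro ⟨⟨d, ξ⟩, A⟩
    by_cases hind : ∀ (y0 : ℤ) (y : Fin d → ℤ), (y0 : ℝ) + ∑ i, (y i : ℝ) * ((ξ i : ℝ)) = 0 → y0 = 0 ∧ y = 0
    · obtain ⟨E, hE, h⟩ := Pool.Agent.Y854.GM.win_nat {k : ℕ | ∏ i, nd (k * (ξ i : ℝ)) ≤ Real.log k ^ A * (k : ℝ) ^ (β - 1)}
        (v := v) (s := β) (τ := τ) (θ := θ) hv1 hτ hvE hβ0 hθ (fun ε hε => by
          obtain ⟨C, hC⟩ := count_log (fun i => (ξ i : ℝ)) (fun i => (ξ i).2) hind A β hβ0 hβ1 ε hε
          exact ⟨C, fun X hX => by convert hC X hX⟩)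
      refine ⟨E, hE, fun _ α hα hαE => ?_⟩
      obtain ⟨n0, hn0⟩ := h α hα hαE
      refine ⟨n0, fun n hn m hm => ?_⟩
      obtain ⟨h1, h2⟩ := hn0 n hn m hm
      refine ⟨h1, fun p => ?_⟩
      have h3 : Real.log m ^ A * (m : ℝ) ^ (β - 1) < ∏ i, nd (m * (ξ i : ℝ)) := by
        by_contra hcon
        exact h2 (not_lt.1 hcon)
      refine h3.trans_le ?_
      apply Finset.prod_le_prod
      · intro i _
        exact nd_nonneg _
      · intro i _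
        exact nd_le _ _
    · exact ⟨∅, by simp, fun h => absurd h hind⟩
  choose E hE hE2 using key
  have hcount : Countable {x : ℝ // IsAlgebraic ℚ x} := (Algebraic.countable ℚ ℝ).to_subtype
  refine ⟨⋃ t, E t, ?_, fun α hα hαE A => ⟨fun ξ hξ hirr => ?_, fun d ξ hξ hind => ?_⟩⟩
  · rw [dimH_iUnion]
    exact iSup_le hE
  · rw [Set.mem_iUnion] at hαE
    push Not at hαE
    obtain ⟨n0, hn0⟩ := hE2 ⟨⟨1, fun _ => ⟨ξ, hξ⟩⟩, A⟩ (fun y0 y h => ind_one ξ hirr y0 y h) α hα (hαE _)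
    refine ⟨n0, fun i hi q hq p => ?_⟩
    obtain ⟨h1, h2⟩ := hn0 i hi q hq
    have h3 := h2 (fun _ => p)
    simp only [Fin.prod_univ_one] at h3
    have hq0 : (0 : ℝ) < q := by exact_mod_cast h1
    have h4 : |(q : ℝ) * ξ - p| = q * |ξ - p / q| := by
      rw [← abs_of_pos hq0, ← abs_mul, abs_of_pos hq0]
      congr 1
      field_simp
    rw [h4] at h3
    have h5 : Real.log q ^ A / (q : ℝ) ^ (2 - β) = Real.log q ^ A * (q : ℝ) ^ (β - 1) / q := by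
      rw [mul_div_assoc, div_eq_mul_inv, ← Real.rpow_neg hq0.le]
      congr 1
      rw [show -(2 - β) = (β - 1) - 1 by ring, Real.rpow_sub_one hq0.ne']
    rw [h5, div_lt_iff₀ hq0]
    linarith
  · rw [Set.mem_iUnion] at hαE
    push Not at hαE
    obtain ⟨n0, hn0⟩ := hE2 ⟨⟨d, fun l => ⟨ξ l, hξ l⟩⟩, A⟩ (fun y0 y h => ind_int ξ hind y0 y h) α hα (hαE _)
    refine ⟨n0, fun i hi q hq p => ?_⟩
    obtain ⟨h1, h2⟩ := hn0 i hi q hq
    have hq0 : (0 : ℝ) < q := by exact_mod_cast h1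
    refine lt_of_eq_of_lt ?_ (h2 p)
    rw [div_eq_mul_inv, ← Real.rpow_neg hq0.le]
    congr 2
    ring

end Pool.Agent.Results.MP_c307ca_nt.DenominatorsNearSequences
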