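import Mathlib
import Pool.Agent.X1.LangV

/-!
# The minimum of `q ‖q x‖` for almost all elements of a real number field

Let `α_1, …, α_d` be real algebraic numbers with `1, α_1, …, α_d` linearly independent over the
rationals, and `0 < κ < d`.  For almost all of the numbers `x = t + m_1 α_1 + … + m_d α_d`,
`0 ≤ m_i < M`, the minimum of `q^2 |x - p/q|` over `1 ≤ q ≤ M^κ` has the exact order `1 / log M`, and
Lang's inequality fails for `ε = 0`, whatever its constant is: for every `c' > 0` almost all `x` have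
an approximation with `|x - p/q| ≤ c' / (q^2 log q)` and `2 ≤ q ≤ M^κ`.
-/

set_option autoImplicit false

namespace Pool.Agent.Results.MP_c307ca_nt.MinimumExactOrder

open Finset Filter

/-- the minimum of `q^2 |x - p/q|` over all integers `p` and `1 ≤ q ≤ M^κ` is larger than
`c / log M` and at most `C / log M` -/
def MinOrder (c C κ : ℝ) (M : ℕ) (x : ℝ) : Prop :=
  (∀ (p : ℤ) (q : ℕ), 1 ≤ q → (q : ℝ) ≤ (M : ℝ) ^ κ →
    c / ((q : ℝ) ^ 2 * Real.log M) < |x - (p : ℝ) / q|) ∧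
  ∃ (p : ℤ) (q : ℕ), 1 ≤ q ∧ (q : ℝ) ≤ (M : ℝ) ^ κ ∧
    |x - (p : ℝ) / q| ≤ C / ((q : ℝ) ^ 2 * Real.log M)

/-- `x` violates Lang's inequality for `ε = 0` with the constant `c'` at some denominator
`2 ≤ q ≤ M^κ` -/
def FailsAtZero (c' κ : ℝ) (M : ℕ) (x : ℝ) : Prop :=
  ∃ (p : ℤ) (q : ℕ), 2 ≤ q ∧ (q : ℝ) ≤ (M : ℝ) ^ κ ∧
    |x - (p : ℝ) / q| ≤ c' / ((q : ℝ) ^ 2 * Real.log q)

lemma ind_int {d : ℕ} (α : Fin d → ℝ)
    (hind : LinearIndependent ℚ (Fin.cons 1 α : Fin (d + 1) → ℝ)) (y0 : ℤ) (y : Fin d → ℤ)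
    (h : (y0 : ℝ) + ∑ i, (y i : ℝ) * α i = 0) : y0 = 0 ∧ y = 0 := by
  have h1 := Fintype.linearIndependent_iff.1 hind
    (Fin.cons (y0 : ℚ) (fun i => (y i : ℚ))) (by
      rw [Fin.sum_univ_succ]
      simp only [Fin.cons_zero, Fin.cons_succ, Rat.smul_def]
      push_cast
      rw [mul_one]
      exact h)
  refine ⟨?_, ?_⟩
  · have := h1 0
    rw [Fin.cons_zero] at this
    exact_mod_cast this
  · funext i
    have := h1 i.succ
    rw [Fin.cons_succ] at this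
    exact_mod_cast this

open Classical in
/-- Let `α_1, …, α_d` (`d ≥ 1`) be real algebraic numbers with `1, α_1, …, α_d` linearly independent
over `ℚ`, `κ > 0` and `η > 0`.

* If `κ < d`, there are `c, C > 0` and `M₀` such that for every `M ≥ M₀` and every real `t` all but
  at most `η M^d` of the numbers `x = t + m_1 α_1 + … + m_d α_d` (`0 ≤ m_i < M`) have
  `c / log M < min_{p, 1 ≤ q ≤ M^κ} q^2 |x - p/q| ≤ C / log M`.
* For every `c' > 0` there is `M₀` such that for every `M ≥ M₀` and every real `t` all but at most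
  `η M^d` of these numbers have `|x - p/q| ≤ c' / (q^2 log q)` for some `p` and
  `2 ≤ q ≤ M^κ`. -/
theorem result {d : ℕ} (hd : 1 ≤ d) (α : Fin d → ℝ) (halg : ∀ i, IsAlgebraic ℚ (α i))
    (hind : LinearIndependent ℚ (Fin.cons 1 α : Fin (d + 1) → ℝ)) (κ η : ℝ) (hκ : 0 < κ)
    (hη : 0 < η) :
    (κ < d → ∃ c C : ℝ, 0 < c ∧ 0 < C ∧ ∃ M₀ : ℕ, ∀ M : ℕ, M₀ ≤ M → ∀ t : ℝ,
      (((Fintype.piFinset fun _ : Fin d => range M).filter fun m =>
        ¬ MinOrder c C κ M (t + ∑ i, (m i : ℝ) * α i)).card : ℝ) ≤ η * (M : ℝ) ^ d) ∧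
    ∀ c' : ℝ, 0 < c' → ∃ M₀ : ℕ, ∀ M : ℕ, M₀ ≤ M → ∀ t : ℝ,
      (((Fintype.piFinset fun _ : Fin d => range M).filter fun m =>
        ¬ FailsAtZero c' κ M (t + ∑ i, (m i : ℝ) * α i)).card : ℝ) ≤ η * (M : ℝ) ^ d := by
  have hii := ind_int α hind
  refine ⟨fun hκd => ?_, fun c' hc' => ?_⟩
  · obtain ⟨c, hc, B1, h1⟩ := Pool.Agent.X1.SchP.lower hd α halg hii κ (η / 2) hκ.le hκd
      (by positivity)
    obtain ⟨C, hC, B2, h2⟩ := Pool.Agent.X1.SchP.upper hd α halg hii κ (η / 2) hκ (by positivity)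
    refine ⟨c, C, hc, hC, max B1 B2, fun M hM t => ?_⟩
    have e1 := h1 M ((le_max_left _ _).trans hM) t
    have e2 := h2 M ((le_max_right _ _).trans hM) t
    have hsub : ((Fintype.piFinset fun _ : Fin d => range M).filter fun m =>
        ¬ MinOrder c C κ M (t + ∑ i, (m i : ℝ) * α i)) ⊆
        ((Pool.Agent.X1.SchP.box d M).filter fun a => ∃ (p : ℤ) (q : ℕ), 1 ≤ q ∧
          (q : ℝ) ≤ (M : ℝ) ^ κ ∧ |t + ∑ i, (a i : ℝ) * α i - (p : ℝ) / q| ≤
            c / ((q : ℝ) ^ 2 * Real.log M)) ∪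
        ((Pool.Agent.X1.SchP.box d M).filter fun a => ∀ (p : ℤ) (q : ℕ), 1 ≤ q →
          (q : ℝ) ≤ (M : ℝ) ^ κ → C / ((q : ℝ) ^ 2 * Real.log M) <
            |t + ∑ i, (a i : ℝ) * α i - (p : ℝ) / q|) := by
      intro m hm
      rw [mem_filter] at hm
      rw [mem_union, mem_filter, mem_filter]
      by_contra hcon
      rw [not_or] at hcon
      apply hm.2
      refine ⟨fun p q hq hqM => ?_, ?_⟩
      · by_contra h
        exact hcon.1 ⟨hm.1, p, q, hq, hqM, not_lt.1 h⟩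
      · by_contra h
        push Not at h
        exact hcon.2 ⟨hm.1, fun p q hq hqM => h p q hq hqM⟩
    have h3 := (card_le_card hsub).trans (card_union_le _ _)
    refine (Nat.cast_le.2 h3).trans ?_
    rw [Nat.cast_add]
    linarith
  · obtain ⟨B1, h1⟩ := Pool.Agent.X1.SchP.upper2 hd α halg hii κ η c' hκ hη hc'
    refine ⟨B1, fun M hM t => ?_⟩
    have e1 := h1 M hM t
    refine le_trans (Nat.cast_le.2 (card_le_card ?_)) e1
    intro m hm
    rw [mem_filter] at hm ⊢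
    refine ⟨hm.1, fun p q hq hqM => ?_⟩
    by_contra h
    exact hm.2 ⟨p, q, hq, hqM, not_lt.1 h⟩

end Pool.Agent.Results.MP_c307ca_nt.MinimumExactOrder
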